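import Pool.Agent.L0h14.OR.NumDefs
import Pool.Agent.Y107.Grad
import Mathlib

/-!
# Correspondences over an algebraically closed field: curves, trace formula, numerical equivalence
-/

universe u v

open CategoryTheory

set_option autoImplicit false

namespace Pool.Agent.L0h14.OE

open Pool.Agent.N174.OC Pool.Agent.L0h14.ORN Pool.Agent.Y107

variable {𝒱 : Type u} [Category.{v} 𝒱] [Preadditive 𝒱] [Linear ℚ 𝒱]

variable (𝒱) in
/-- Further formal properties of correspondences (see `ORN.ChowTheory`): the transpose is an involution which preserves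
the trace, there are no cycles of codimension larger than `dim X + dim Y` on `X × Y`, numerical equivalence has finite
rank, and the Lefschetz trace formula: `tr X a` is the difference of the traces of the action of `a` on the cohomology of
`X` of even and of odd degree, for a Weil cohomology theory (for example `ℓ`-adic cohomology). -/
structure TraceTheory extends ChowTheory 𝒱 where
  tp_tp : ∀ {X Y : 𝒱} (a : X ⟶ Y), tp (tp a) = a
  tr_tp : ∀ {X : 𝒱} (a : X ⟶ X), tr X (tp a) = tr X a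
  top : ∀ (X Y : 𝒱) (i : ℤ), dim Y < i → gr X Y i = ⊥
  finiteHom : ∀ X Y : 𝒱, ∃ (n : ℕ) (φ : (X ⟶ Y) →ₗ[ℚ] (Fin n → ℚ)), ∀ a, φ a = 0 → a ∈ toChowTheory.triv X Y
  lefschetz : ∀ X : 𝒱, ∃ (K : Type) (_ : Field K) (_ : CharZero K) (m n : ℕ)
    (ρ : End X →+* Matrix (Fin m) (Fin m) K) (σ : End X →+* Matrix (Fin n) (Fin n) K),
    ∀ a : End X, ((tr X a : ℚ) : K) = (ρ a).trace - (σ a).trace

variable (𝒱) in
/-- The formal properties of the correspondences between smooth projective connected varieties over an algebraically closed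
field `k`, all of them being well known: those of `TraceTheory`, and for points and curves

* `pt` is the point; `CH(pt × pt) = ℚ` and every variety of dimension zero is a point;
* numerically trivial endomorphisms of finite direct sums of motives of curves and points are nilpotent (finite-dimensionality in
the sense of Kimura, which is elementary here);
* for a divisor `a` on the product `C × C` of a curve with itself which is numerically orthogonal to the fibres of both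
projections, `(a · a) = tr C (a ≫ tp a)` is not zero unless `a` is numerically trivial (Castelnuovo-Severi, Weil). -/
structure CurveTheory extends TraceTheory 𝒱 where
  pt : 𝒱
  dim_pt : dim pt = 0
  pt_end : ∀ a ∈ gr pt pt 0, ∃ c : ℚ, a = c • 𝟙 pt
  pt_iso : ∀ Z : 𝒱, dim Z = 0 → ∃ a ∈ gr Z pt 0, ∃ b ∈ gr pt Z 0, a ≫ b = 𝟙 Z ∧ b ≫ a = 𝟙 pt
  curves : toChowTheory.Finite (fun Z => dim Z ≤ 1)
  weil : ∀ C : 𝒱, dim C = 1 → ∀ a ∈ gr C C 0, (∀ x : pt ⟶ C, x ≫ a ∈ toChowTheory.triv pt C) →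
    (∀ y : C ⟶ pt, a ≫ y ∈ toChowTheory.triv C pt) → tr C (a ≫ tp a) = 0 → a ∈ toChowTheory.triv C C

namespace TraceTheory

variable (T : TraceTheory 𝒱)

/-- The correspondences of degree `i` from `X` to `Y` which are supported on products `D × D'` of proper subvarieties: sums
of compositions of the restriction to `D`, of a correspondence between (smooth models of) `D` and `D'`, and of the
push-forward from `D'`. -/
def Supp (i : ℤ) (X Y : 𝒱) : Submodule ℚ (X ⟶ Y) :=
  Submodule.span ℚ {f | ∃ (D D' : 𝒱) (a : X ⟶ D) (z : D ⟶ D') (b : D' ⟶ Y), T.dim D < T.dim X ∧ T.dim D' < T.dim Y ∧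
    a ∈ T.gr X D 0 ∧ z ∈ T.gr D D' (i - (T.dim Y - T.dim D')) ∧ b ∈ T.gr D' Y (T.dim Y - T.dim D') ∧ f = a ≫ z ≫ b}

/-- The components of negative degree of the mixed correspondence `v` are sums of correspondences which are supported on
products of proper subvarieties and of correspondences which come from curves (or points). -/
def NegSmall {X Y : 𝒱} (v : X ⟶ Y) : Prop :=
  ∀ i : ℤ, i < 0 → cmp (T.isInternal X Y) i v ∈ Via (fun Z => T.dim Z ≤ 1) X Y ⊔ T.Supp i X Y

/-- There are correspondences `γ` and `γ'` of degree zero which are inverse to each other on the cycles of codimension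
at most `m` modulo numerical equivalence on `X`, on `Y`, and on their products with curves. For `m = 1` this is satisfied if
`X` and `Y` are birational and isomorphic in codimension one, `γ` being the closure of the graph and `γ'` its transpose. -/
def IsoCodim (m : ℕ) (X Y : 𝒱) : Prop :=
  ∃ γ ∈ T.gr X Y 0, ∃ γ' ∈ T.gr Y X 0,
    (∀ (Z : 𝒱) (i : ℤ), T.dim Z ≤ 1 → T.dim Z + i ≤ m → ∀ f ∈ T.gr Z X i, f ≫ γ ≫ γ' - f ∈ T.triv Z X) ∧
    ∀ (Z : 𝒱) (i : ℤ), T.dim Z ≤ 1 → T.dim Z + i ≤ m → ∀ f ∈ T.gr Z Y i, f ≫ γ' ≫ γ - f ∈ T.triv Z Y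

/-! ### Correspondences modulo numerical equivalence -/

/-- the correspondences modulo numerical equivalence -/
abbrev NH (X Y : 𝒱) : Type v := (X ⟶ Y) ⧸ T.triv X Y

/-- the class of a correspondence -/
def cl {X Y : 𝒱} : (X ⟶ Y) →ₗ[ℚ] T.NH X Y := (T.triv X Y).mkQ

lemma triv_right {X Y Z : 𝒱} {a : X ⟶ Y} (ha : a ∈ T.triv X Y) (f : Y ⟶ Z) : a ≫ f ∈ T.triv X Z := by
  intro b
  have h := ha (f ≫ b)
  rwa [← Category.assoc] at h

lemma triv_left {X Y Z : 𝒱} (f : X ⟶ Y) {a : Y ⟶ Z} (ha : a ∈ T.triv Y Z) : f ≫ a ∈ T.triv X Z := by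
  intro b
  have h := ha (b ≫ f)
  have h1 := T.tr_comm (a ≫ b) f
  have h2 := T.tr_comm f (a ≫ b)
  rw [Category.assoc, h2, Category.assoc]
  exact h

/-- composition with a fixed correspondence on the left -/
def lc {X Y : 𝒱} (f : X ⟶ Y) (Z : 𝒱) : (Y ⟶ Z) →ₗ[ℚ] (X ⟶ Z) where
  toFun a := f ≫ a
  map_add' a b := Preadditive.comp_add _ _ _ f a b
  map_smul' r a := Linear.comp_smul _ _ _ f r a

/-- composition modulo numerical equivalence -/
def nc {X Y Z : 𝒱} : T.NH X Y →ₗ[ℚ] T.NH Y Z →ₗ[ℚ] T.NH X Z :=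
  (T.triv X Y).liftQ
    { toFun := fun f => (T.triv Y Z).mapQ (T.triv X Z) (lc f Z) (fun _ h => T.triv_left f h)
      map_add' := by
        intro f g
        refine LinearMap.ext fun x => ?_
        obtain ⟨a, rfl⟩ := Submodule.Quotient.mk_surjective _ x
        change (Submodule.Quotient.mk ((f + g) ≫ a) : T.NH X Z) = Submodule.Quotient.mk (f ≫ a) + Submodule.Quotient.mk (g ≫ a)
        rw [Preadditive.add_comp, Submodule.Quotient.mk_add]
      map_smul' := by
        intro c f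
        refine LinearMap.ext fun x => ?_
        obtain ⟨a, rfl⟩ := Submodule.Quotient.mk_surjective _ x
        change (Submodule.Quotient.mk ((c • f) ≫ a) : T.NH X Z) = c • Submodule.Quotient.mk (f ≫ a)
        rw [Linear.smul_comp, Submodule.Quotient.mk_smul] }
    (by
      intro f hf
      rw [LinearMap.mem_ker]
      refine LinearMap.ext fun x => ?_
      obtain ⟨a, rfl⟩ := Submodule.Quotient.mk_surjective _ x
      change (Submodule.Quotient.mk (f ≫ a) : T.NH X Z) = 0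
      rw [Submodule.Quotient.mk_eq_zero]
      exact T.triv_right hf a)

lemma nc_cl {X Y Z : 𝒱} (f : X ⟶ Y) (g : Y ⟶ Z) : T.nc (T.cl f) (T.cl g) = T.cl (f ≫ g) := rfl

lemma cl_surj {X Y : 𝒱} (x : T.NH X Y) : ∃ f, T.cl f = x := Submodule.Quotient.mk_surjective _ x

lemma cl_eq_zero {X Y : 𝒱} {f : X ⟶ Y} : T.cl f = 0 ↔ f ∈ T.triv X Y := Submodule.Quotient.mk_eq_zero _

lemma cl_eq {X Y : 𝒱} {f g : X ⟶ Y} : T.cl f = T.cl g ↔ f - g ∈ T.triv X Y := Submodule.Quotient.eq _

lemma nc_assoc {X Y Z W : 𝒱} (f : T.NH X Y) (g : T.NH Y Z) (h : T.NH Z W) :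
    T.nc (T.nc f g) h = T.nc f (T.nc g h) := by
  obtain ⟨f, rfl⟩ := T.cl_surj f
  obtain ⟨g, rfl⟩ := T.cl_surj g
  obtain ⟨h, rfl⟩ := T.cl_surj h
  rw [nc_cl, nc_cl, nc_cl, nc_cl, Category.assoc]

/-- the identity -/
def one (X : 𝒱) : T.NH X X := T.cl (𝟙 X)

lemma one_nc {X Y : 𝒱} (f : T.NH X Y) : T.nc (T.one X) f = f := by
  obtain ⟨f, rfl⟩ := T.cl_surj f
  rw [one, nc_cl, Category.id_comp]

lemma nc_one {X Y : 𝒱} (f : T.NH X Y) : T.nc f (T.one Y) = f := by
  obtain ⟨f, rfl⟩ := T.cl_surj f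
  rw [one, nc_cl, Category.comp_id]

/-- the classes of degree `i` -/
def gN (X Y : 𝒱) (i : ℤ) : Submodule ℚ (T.NH X Y) := (T.gr X Y i).map T.cl

lemma mem_gN {X Y : 𝒱} {i : ℤ} {x : T.NH X Y} : x ∈ T.gN X Y i ↔ ∃ f ∈ T.gr X Y i, T.cl f = x := Iff.rfl

lemma nc_mem {X Y Z : 𝒱} {i j : ℤ} {x : T.NH X Y} {y : T.NH Y Z} (hx : x ∈ T.gN X Y i) (hy : y ∈ T.gN Y Z j) :
    T.nc x y ∈ T.gN X Z (i + j) := by
  obtain ⟨f, hf, rfl⟩ := hx
  obtain ⟨g, hg, rfl⟩ := hy
  exact ⟨f ≫ g, T.comp_mem hf hg, rfl⟩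

lemma one_mem (X : 𝒱) : T.one X ∈ T.gN X X 0 := ⟨𝟙 X, T.id_mem X, rfl⟩

/-- The motives modulo numerical equivalence `h(V)(k)`. -/
structure Tw (T : TraceTheory 𝒱) where
  /-- the variety -/
  V : 𝒱
  /-- the twist -/
  k : ℤ

/-- The category of the motives `h(V)(k)` modulo numerical equivalence. -/
instance : Category.{v} (Tw T) where
  Hom A B := T.gN A.V B.V (B.k - A.k)
  id A := ⟨T.one A.V, by rw [sub_self]; exact T.one_mem A.V⟩
  comp {A B C} f g := ⟨T.nc f.1 g.1, by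
    have h := T.nc_mem f.2 g.2
    have e : B.k - A.k + (C.k - B.k) = C.k - A.k := by omega
    rwa [e] at h⟩
  id_comp f := Subtype.ext (T.one_nc f.1)
  comp_id f := Subtype.ext (T.nc_one f.1)
  assoc f g h := Subtype.ext (T.nc_assoc f.1 g.1 h.1)

lemma Tw.id_val (A : Tw T) : (𝟙 A : A ⟶ A).1 = T.one A.V := rfl

lemma Tw.comp_val {A B C : Tw T} (f : A ⟶ B) (g : B ⟶ C) : (f ≫ g).1 = T.nc f.1 g.1 := rfl

instance : Preadditive (Tw T) where
  homGroup A B := inferInstanceAs (AddCommGroup (T.gN A.V B.V (B.k - A.k)))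
  add_comp A B C f f' g := Subtype.ext (by
    change T.nc (f.1 + f'.1) g.1 = T.nc f.1 g.1 + T.nc f'.1 g.1
    rw [map_add, LinearMap.add_apply])
  comp_add A B C f g g' := Subtype.ext (by
    change T.nc f.1 (g.1 + g'.1) = T.nc f.1 g.1 + T.nc f.1 g'.1
    rw [map_add])

instance : Linear ℚ (Tw T) where
  homModule A B := inferInstanceAs (Module ℚ (T.gN A.V B.V (B.k - A.k)))
  smul_comp A B C r f g := Subtype.ext (by
    change T.nc (r • f.1) g.1 = r • T.nc f.1 g.1
    rw [map_smul, LinearMap.smul_apply])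
  comp_smul A B C f r g := Subtype.ext (by
    change T.nc f.1 (r • g.1) = r • T.nc f.1 g.1
    rw [map_smul])

/-- The maps `h : C ⟶ X` of degree `i`, modulo numerical equivalence, with `p ≫ h = h`. -/
def FixN {C : 𝒱} (p : T.NH C C) (X : 𝒱) (i : ℤ) : Submodule ℚ (T.NH C X) :=
  T.gN C X i ⊓ LinearMap.ker (T.nc p - LinearMap.id)

/-- The maps `h : C ⟶ X` of all degrees, modulo numerical equivalence, with `p ≫ h = h`. -/
def FixT {C : 𝒱} (p : T.NH C C) (X : 𝒱) : Submodule ℚ (T.NH C X) := LinearMap.ker (T.nc p - LinearMap.id)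

lemma mem_FixT {C : 𝒱} {p : T.NH C C} {X : 𝒱} {h : T.NH C X} : h ∈ T.FixT p X ↔ T.nc p h = h := by
  rw [FixT, LinearMap.mem_ker, LinearMap.sub_apply, LinearMap.id_apply, sub_eq_zero]

lemma mem_FixN {C : 𝒱} {p : T.NH C C} {X : 𝒱} {i : ℤ} {h : T.NH C X} :
    h ∈ T.FixN p X i ↔ h ∈ T.gN C X i ∧ T.nc p h = h := by
  rw [FixN, Submodule.mem_inf, LinearMap.mem_ker, LinearMap.sub_apply, LinearMap.id_apply, sub_eq_zero]

/-- the dimension of `FixN` -/
noncomputable def D {C : 𝒱} (p : T.NH C C) (X : 𝒱) (i : ℤ) : ℕ := Module.finrank ℚ (T.FixN p X i)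

lemma tp_triv {X Y : 𝒱} {a : X ⟶ Y} (ha : a ∈ T.triv X Y) : T.tp a ∈ T.triv Y X := by
  intro b
  have h1 : T.tp a ≫ b = T.tp (T.tp b ≫ a) := by rw [T.tp_comp, T.tp_tp]
  rw [h1, T.tr_tp, T.tr_comm]
  exact ha _

/-- the transpose modulo numerical equivalence -/
def tN {X Y : 𝒱} : T.NH X Y →ₗ[ℚ] T.NH Y X := (T.triv X Y).mapQ (T.triv Y X) T.tp (fun _ h => T.tp_triv h)

lemma tN_cl {X Y : 𝒱} (f : X ⟶ Y) : T.tN (T.cl f) = T.cl (T.tp f) := rfl

/-- The idempotent `p`, of degree zero, has no decomposition: non-zero elements of `p E p` are invertible, `E` being the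
algebra of the endomorphisms of degree zero modulo numerical equivalence. -/
def DivN {C : 𝒱} (p : T.NH C C) : Prop :=
  p ∈ T.gN C C 0 ∧ T.nc p p = p ∧ p ≠ 0 ∧ ∀ x ∈ T.gN C C 0, T.nc p x = x → T.nc x p = x → x ≠ 0 →
    ∃ y ∈ T.gN C C 0, T.nc p y = y ∧ T.nc y p = y ∧ T.nc x y = p ∧ T.nc y x = p

/-- The direct summands `p` of `h(C)` and `q` of `h(C')` are isomorphic up to a twist by `s`. -/
def Cong {C C' : 𝒱} (p : T.NH C C) (q : T.NH C' C') (s : ℤ) : Prop :=
  ∃ a ∈ T.gN C C' s, ∃ b ∈ T.gN C' C (-s), T.nc p a = a ∧ T.nc a q = a ∧ T.nc q b = b ∧ T.nc b p = b ∧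
    T.nc a b = p ∧ T.nc b a = q

end TraceTheory

end Pool.Agent.L0h14.OE
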