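import Pool.Agent.N174.OC.Defs
import Pool.Agent.Y107.Grad
import Mathlib

/-!
# Homogeneous components of compositions of correspondences
-/

universe u v

open CategoryTheory

set_option autoImplicit false

namespace Pool.Agent.L0h14.OE

open Pool.Agent.N174.OC Pool.Agent.Y107

variable {𝒱 : Type u} [Category.{v} 𝒱] [Preadditive 𝒱] [Linear ℚ 𝒱] (C : Cor 𝒱)

lemma hom_mem {X Y : 𝒱} (Γ : X ⟶ Y) : Γ ∈ ⨆ i, C.gr X Y i := by
  rw [(C.isInternal X Y).submodule_iSup_eq_top]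
  exact Submodule.mem_top

/-- a correspondence is the sum of its components -/
lemma exists_sum {X Y : 𝒱} (v : X ⟶ Y) : ∃ B : ℕ, ∀ s : Finset ℤ, Finset.Icc (-(B : ℤ)) B ⊆ s →
    v = ∑ i ∈ s, cmp (C.isInternal X Y) i v := by
  have key : ∀ v : X ⟶ Y, ∃ B : ℕ, ∀ s : Finset ℤ, Finset.Icc (-(B : ℤ)) B ⊆ s →
      v = ∑ i ∈ s, cmp (C.isInternal X Y) i v := by
    intro v
    refine Submodule.iSup_induction (C.gr X Y) (motive := fun v => ∃ B : ℕ, ∀ s : Finset ℤ,
      Finset.Icc (-(B : ℤ)) B ⊆ s → v = ∑ i ∈ s, cmp (C.isInternal X Y) i v) (hom_mem C v)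
      (fun j v hv => ?_) ?_ (fun v v' h h' => ?_)
    · refine ⟨j.natAbs, fun s hs => ?_⟩
      have hj : j ∈ s := hs (Finset.mem_Icc.2 (by omega))
      rw [Finset.sum_eq_single j (fun i _ hi => cmp_of_ne _ hv (Ne.symm hi)) (fun h => absurd hj h), cmp_of_mem _ hv]
    · exact ⟨0, fun s _ => by simp⟩
    · obtain ⟨B, hB⟩ := h
      obtain ⟨B', hB'⟩ := h'
      refine ⟨max B B', fun s hs => ?_⟩
      have h1 := hB s ((Finset.Icc_subset_Icc (by simp) (by simp)).trans hs)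
      have h2 := hB' s ((Finset.Icc_subset_Icc (by simp) (by simp)).trans hs)
      simp only [map_add, Finset.sum_add_distrib]
      rw [← h1, ← h2]
  exact key v

/-- the component of degree zero of a composition -/
lemma z0_comp {X Y Z : 𝒱} (v : X ⟶ Y) (w : Y ⟶ Z) (S : Submodule ℚ (X ⟶ Z))
    (h : ∀ i : ℤ, i ≠ 0 → cmp (C.isInternal X Y) i v ≫ cmp (C.isInternal Y Z) (-i) w ∈ S) :
    cmp (C.isInternal X Z) 0 (v ≫ w) - cmp (C.isInternal X Y) 0 v ≫ cmp (C.isInternal Y Z) 0 w ∈ S := by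
  classical
  obtain ⟨B, hB⟩ := exists_sum C v
  obtain ⟨B', hB'⟩ := exists_sum C w
  set M : ℕ := max B B'
  set s : Finset ℤ := Finset.Icc (-(M : ℤ)) M with hs
  have h1 := hB s (Finset.Icc_subset_Icc (by simp [M]) (by simp [M]))
  have h2 := hB' s (Finset.Icc_subset_Icc (by simp [M]) (by simp [M]))
  have h0 : (0 : ℤ) ∈ s := Finset.mem_Icc.2 (by omega)
  have e : cmp (C.isInternal X Z) 0 (v ≫ w) =
      ∑ i ∈ s, cmp (C.isInternal X Y) i v ≫ cmp (C.isInternal Y Z) (-i) w := by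
    conv_lhs => rw [h1, h2]
    rw [Preadditive.sum_comp, map_sum]
    refine Finset.sum_congr rfl fun i hi => ?_
    have hi' : -i ∈ s := by
      rw [hs, Finset.mem_Icc] at hi ⊢
      omega
    rw [Preadditive.comp_sum, map_sum, Finset.sum_eq_single (-i)]
    · have := C.comp_mem (cmp_mem (C.isInternal X Y) i v) (cmp_mem (C.isInternal Y Z) (-i) w)
      rw [add_neg_cancel] at this
      rw [cmp_of_mem _ this]
    · intro j _ hj
      exact cmp_of_ne _ (C.comp_mem (cmp_mem (C.isInternal X Y) i v) (cmp_mem (C.isInternal Y Z) j w)) (by omega)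
    · intro h
      exact absurd hi' h
  rw [e, ← Finset.add_sum_erase s _ h0, neg_zero, add_sub_cancel_left]
  exact Submodule.sum_mem _ fun i hi => h i (Finset.ne_of_mem_erase hi)

/-- composition with homogeneous correspondences -/
lemma cmp_comp_right {X Y Z : 𝒱} (v : X ⟶ Y) {κ : Y ⟶ Z} {d : ℤ} (hκ : κ ∈ C.gr Y Z d) (i : ℤ) :
    cmp (C.isInternal X Z) (i + d) (v ≫ κ) = cmp (C.isInternal X Y) i v ≫ κ := by
  refine Submodule.iSup_induction (C.gr X Y) (motive := fun v => cmp (C.isInternal X Z) (i + d) (v ≫ κ) =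
    cmp (C.isInternal X Y) i v ≫ κ) (hom_mem C v) (fun j v hv => ?_) ?_ (fun v v' h h' => ?_)
  · by_cases hij : j = i
    · subst hij
      rw [cmp_of_mem _ hv, cmp_of_mem _ (C.comp_mem hv hκ)]
    · rw [cmp_of_ne _ hv hij, cmp_of_ne _ (C.comp_mem hv hκ) (by omega), Limits.zero_comp]
  · rw [Limits.zero_comp, map_zero, map_zero, Limits.zero_comp]
  · rw [Preadditive.add_comp, map_add, map_add, Preadditive.add_comp, h, h']

lemma cmp_comp_left {X Y Z : 𝒱} {κ : X ⟶ Y} {d : ℤ} (hκ : κ ∈ C.gr X Y d) (v : Y ⟶ Z) (i : ℤ) :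
    cmp (C.isInternal X Z) (d + i) (κ ≫ v) = κ ≫ cmp (C.isInternal Y Z) i v := by
  refine Submodule.iSup_induction (C.gr Y Z) (motive := fun v => cmp (C.isInternal X Z) (d + i) (κ ≫ v) =
    κ ≫ cmp (C.isInternal Y Z) i v) (hom_mem C v) (fun j v hv => ?_) ?_ (fun v v' h h' => ?_)
  · by_cases hij : j = i
    · subst hij
      rw [cmp_of_mem _ hv, cmp_of_mem _ (C.comp_mem hκ hv)]
    · rw [cmp_of_ne _ hv hij, cmp_of_ne _ (C.comp_mem hκ hv) (by omega), Limits.comp_zero]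
  · rw [Limits.comp_zero, map_zero, map_zero, Limits.comp_zero]
  · rw [Preadditive.comp_add, map_add, map_add, Preadditive.comp_add, h, h']

end Pool.Agent.L0h14.OE
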