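import Pool.Agent.L0h14.OE.Defs

/-!
# The modules (statements)
-/

universe u v

open CategoryTheory

set_option autoImplicit false

namespace Pool.Agent.L0h14.OE

open Pool.Agent.N174.OC Pool.Agent.L0h14.ORN Pool.Agent.Y107

/-- idempotents `p` for which `p E p` is a division ring -/
def DivC {𝒞 : Type u} [Category.{v} 𝒞] [Preadditive 𝒞] {U : 𝒞} (p : U ⟶ U) : Prop :=
  p ≫ p = p ∧ p ≠ 0 ∧ ∀ x : U ⟶ U, p ≫ x = x → x ≫ p = x → x ≠ 0 →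
    ∃ y : U ⟶ U, p ≫ y = y ∧ y ≫ p = y ∧ x ≫ y = p ∧ y ≫ x = p

/-- the maps `h` with `p ≫ h = h` -/
def FixC {𝒞 : Type u} [Category.{v} 𝒞] [Preadditive 𝒞] [Linear ℚ 𝒞] {U : 𝒞} (p : U ⟶ U) (X : 𝒞) : Submodule ℚ (U ⟶ X) where
  carrier := {h | p ≫ h = h}
  zero_mem' := Limits.comp_zero
  add_mem' := by
    intro a b ha hb
    change p ≫ (a + b) = a + b
    rw [Preadditive.comp_add, show p ≫ a = a from ha, show p ≫ b = b from hb]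
  smul_mem' := by
    intro c a ha
    change p ≫ (c • a) = c • a
    rw [Linear.comp_smul, show p ≫ a = a from ha]

/-- KS. Krull-Schmidt counting: in a category with finite-dimensional `Hom`s in which no non-zero morphism is in the
radical (every `a ≠ 0` has a `b` with `a ≫ b` not nilpotent), two objects are isomorphic if they are isomorphic up to
morphisms which factor through objects in `S`, and contain the direct summands of objects in `S` with the same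
multiplicity. -/
def S_KS : Prop := ∀ {𝒞 : Type u} [Category.{v} 𝒞] [Preadditive 𝒞] [Linear ℚ 𝒞]
  (_ : ∀ A B : 𝒞, FiniteDimensional ℚ (A ⟶ B))
  (_ : ∀ {A B : 𝒞} (a : A ⟶ B), a ≠ 0 → ∃ b : B ⟶ A, ¬ IsNilpotent (show End A from a ≫ b))
  (S : 𝒞 → Prop) (X Y : 𝒞) (f : X ⟶ Y) (g : Y ⟶ X), f ≫ g - 𝟙 X ∈ Via S X X → g ≫ f - 𝟙 Y ∈ Via S Y Y →
  (∀ U, S U → ∀ p : U ⟶ U, DivC p → Module.finrank ℚ (FixC p X) = Module.finrank ℚ (FixC p Y)) →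
  ∃ (u : X ⟶ Y) (u' : Y ⟶ X), u ≫ u' = 𝟙 X ∧ u' ≫ u = 𝟙 Y

/-- POW. Power sums: if the traces of all large powers of two matrices agree then so do their traces. -/
def S_Pow : Prop := ∀ (K : Type) [Field K] [CharZero K] (m n : ℕ) (A : Matrix (Fin m) (Fin m) K)
  (B : Matrix (Fin n) (Fin n) K) (N : ℕ), (∀ k, N ≤ k → (A ^ k).trace = (B ^ k).trace) → A.trace = B.trace

/-- ND. (Uses POW.) No non-zero morphism of the category of motives modulo numerical equivalence is in the radical. -/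
def S_ND : Prop := ∀ {𝒱 : Type u} [Category.{v} 𝒱] [Preadditive 𝒱] [Linear ℚ 𝒱] (T : TraceTheory 𝒱)
  {A B : TraceTheory.Tw T} (a : A ⟶ B), a ≠ 0 → ∃ b : B ⟶ A, ¬ IsNilpotent (show End A from a ≫ b)

/-- FD. -/
def S_Fd : Prop := ∀ {𝒱 : Type u} [Category.{v} 𝒱] [Preadditive 𝒱] [Linear ℚ 𝒱] (T : TraceTheory 𝒱),
  (∀ X Y : 𝒱, FiniteDimensional ℚ (T.NH X Y)) ∧ ∀ A B : TraceTheory.Tw T, FiniteDimensional ℚ (A ⟶ B)

/-- TOT. The dimension of the space of all maps `h` with `p ≫ h = h` is the sum over the degrees. -/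
def S_Tot : Prop := ∀ {𝒱 : Type u} [Category.{v} 𝒱] [Preadditive 𝒱] [Linear ℚ 𝒱] (T : TraceTheory 𝒱)
  (C X : 𝒱), ∀ p ∈ T.gN C C 0,
    Module.finrank ℚ (T.FixT p X) = ∑ i ∈ Finset.Icc (-(T.dim C : ℤ)) (T.dim X), T.D p X i

/-- TOTISO. It is the same for `X` and `Y` if there is an isomorphism of mixed degree. -/
def S_TotIso : Prop := ∀ {𝒱 : Type u} [Category.{v} 𝒱] [Preadditive 𝒱] [Linear ℚ 𝒱] (T : TraceTheory 𝒱)
  (C X Y : 𝒱) (p : T.NH C C) (v : X ⟶ Y) (w : Y ⟶ X), v ≫ w = 𝟙 X → w ≫ v = 𝟙 Y →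
    Module.finrank ℚ (T.FixT p X) = Module.finrank ℚ (T.FixT p Y)

/-- DUAL. Duality. -/
def S_Dual : Prop := ∀ {𝒱 : Type u} [Category.{v} 𝒱] [Preadditive 𝒱] [Linear ℚ 𝒱] (T : TraceTheory 𝒱)
  (C X : 𝒱), ∀ p ∈ T.gN C C 0, T.nc p p = p → ∀ i : ℤ, T.D p X i = T.D (T.tN p) X (T.dim X - T.dim C - i)

/-- LOW. -/
def S_LowEq : Prop := ∀ {𝒱 : Type u} [Category.{v} 𝒱] [Preadditive 𝒱] [Linear ℚ 𝒱] (T : TraceTheory 𝒱)
  (m : ℕ) (C X Y : 𝒱), T.IsoCodim m X Y → T.dim C ≤ 1 → ∀ (p : T.NH C C) (i : ℤ), T.dim C + i ≤ m →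
    T.D p X i = T.D p Y i

/-- CONG. -/
def S_Cong : Prop := ∀ {𝒱 : Type u} [Category.{v} 𝒱] [Preadditive 𝒱] [Linear ℚ 𝒱] (T : TraceTheory 𝒱)
  (C C' X : 𝒱) (p : T.NH C C) (q : T.NH C' C') (s : ℤ), T.Cong p q s → ∀ i : ℤ, T.D p X i = T.D q X (i - s)

/-- CLASS. Indecomposable direct summands of the motive of a curve are Tate twists or isomorphic to their duals. -/
def S_Class : Prop := ∀ {𝒱 : Type u} [Category.{v} 𝒱] [Preadditive 𝒱] [Linear ℚ 𝒱] (T : CurveTheory 𝒱)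
  (C : 𝒱), T.dim C ≤ 1 → ∀ p : T.NH C C, T.DivN p →
    (∃ s : ℤ, T.Cong p (T.one T.pt) s) ∨ (T.dim C = 1 ∧ T.Cong p (T.tN p) 0)

/-- CNT. (Uses TOT, TOTISO, DUAL, LOW, CONG, CLASS.) -/
def S_Cnt : Prop := ∀ {𝒱 : Type u} [Category.{v} 𝒱] [Preadditive 𝒱] [Linear ℚ 𝒱] (T : CurveTheory 𝒱)
  (m : ℕ) (X Y : 𝒱), T.dim X = T.dim Y → T.dim X ≤ 2 * m + 2 → T.IsoCodim m X Y →
  (∃ (v : X ⟶ Y) (w : Y ⟶ X), v ≫ w = 𝟙 X ∧ w ≫ v = 𝟙 Y) → ∀ C : 𝒱, T.dim C ≤ 1 → ∀ p : T.NH C C, T.DivN p →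
  ∀ i : ℤ, T.D p X i = T.D p Y i

/-- VIATW. A correspondence of degree zero which comes from curves factors through curves with twists. -/
def S_ViaTw : Prop := ∀ {𝒱 : Type u} [Category.{v} 𝒱] [Preadditive 𝒱] [Linear ℚ 𝒱] (T : TraceTheory 𝒱)
  (X Y : 𝒱) (f : X ⟶ Y) (hf : f ∈ T.gr X Y 0), f ∈ Via (fun Z => T.dim Z ≤ 1) X Y →
  (show (⟨X, 0⟩ : TraceTheory.Tw T) ⟶ ⟨Y, 0⟩ from ⟨T.cl f, f, hf, rfl⟩) ∈
    Via (fun U : TraceTheory.Tw T => T.dim U.V ≤ 1) (⟨X, 0⟩ : TraceTheory.Tw T) ⟨Y, 0⟩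

/-- Z0. The components of degree zero of `v` and `w` are inverse to each other up to correspondences from curves. -/
def S_Z0 : Prop := ∀ {𝒱 : Type u} [Category.{v} 𝒱] [Preadditive 𝒱] [Linear ℚ 𝒱] (T : TraceTheory 𝒱)
  (X Y : 𝒱) (v : X ⟶ Y) (w : Y ⟶ X), T.dim X = T.dim Y → T.dim X ≤ 4 → v ≫ w = 𝟙 X → T.NegSmall v → T.NegSmall w →
  cmp (T.isInternal X Y) 0 v ≫ cmp (T.isInternal Y X) 0 w - 𝟙 X ∈ Via (fun Z => T.dim Z ≤ 1) X X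

/-- NUM. (Uses KS, ND, FD, CNT, VIATW.) -/
def S_Num : Prop := ∀ {𝒱 : Type u} [Category.{v} 𝒱] [Preadditive 𝒱] [Linear ℚ 𝒱] (T : CurveTheory 𝒱)
  (m : ℕ) (X Y : 𝒱), T.dim X = T.dim Y → T.dim X ≤ 2 * m + 2 → T.IsoCodim m X Y →
  (∃ (v : X ⟶ Y) (w : Y ⟶ X), v ≫ w = 𝟙 X ∧ w ≫ v = 𝟙 Y) → ∀ f ∈ T.gr X Y 0, ∀ g ∈ T.gr Y X 0,
  f ≫ g - 𝟙 X ∈ Via (fun Z => T.dim Z ≤ 1) X X → g ≫ f - 𝟙 Y ∈ Via (fun Z => T.dim Z ≤ 1) Y Y → T.NumIso X Y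

end Pool.Agent.L0h14.OE
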